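import Pool.Agent.NBT.StmtsM

/-!
# NBT squad, row POT: a potential of a digraph whose strong components have at most two elements
(helper9)
-/

set_option autoImplicit false

namespace Pool.Agent.NBT.H9

open Pool.Agent.NBT

theorem pot : PotStmt := by
  classical
  intro K D hD
  set R : Fin K → Fin K → Prop := Relation.ReflTransGen D with hR
  have Rrefl : ∀ k, R k k := fun k => Relation.ReflTransGen.refl
  have Rtrans : ∀ {i j l}, R i j → R j l → R i l := fun h1 h2 => Relation.ReflTransGen.trans h1 h2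
  set N : Fin K → ℕ := fun k => (Finset.univ.filter fun m => R k m).card with hN
  set μ : Fin K → ℕ := fun k => sInf {n : ℕ | ∃ m : Fin K, m.val = n ∧ R k m ∧ R m k} with hμ
  have μmem : ∀ k, ∃ m : Fin K, m.val = μ k ∧ R k m ∧ R m k := by
    intro k
    exact Nat.sInf_mem (s := {n : ℕ | ∃ m : Fin K, m.val = n ∧ R k m ∧ R m k})
      ⟨k.val, k, rfl, Rrefl k, Rrefl k⟩
  have μlt : ∀ k, (μ k : ℝ) < K := by
    intro k
    obtain ⟨m, hm, -, -⟩ := μmem k
    rw [← hm]
    exact_mod_cast m.isLt
  have μ0 : ∀ k, (0:ℝ) ≤ μ k := fun k => Nat.cast_nonneg _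
  have eqN : ∀ k r, R k r → R r k → N k = N r := by
    intro k r h1 h2
    simp only [hN]
    congr 1
    ext m
    simp only [Finset.mem_filter, Finset.mem_univ, true_and]
    exact ⟨fun h => Rtrans h2 h, fun h => Rtrans h1 h⟩
  have eqμ : ∀ k r, R k r → R r k → μ k = μ r := by
    intro k r h1 h2
    simp only [hμ]
    congr 1
    ext n
    simp only [Set.mem_ofPred_eq]
    constructor
    · rintro ⟨m, hm, h3, h4⟩
      exact ⟨m, hm, Rtrans h2 h3, Rtrans h4 h1⟩
    · rintro ⟨m, hm, h3, h4⟩
      exact ⟨m, hm, Rtrans h1 h3, Rtrans h4 h2⟩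
  have two : ∀ k r, k ≠ r → (μ k : ℝ) - (K + 1) * N k = (μ r : ℝ) - (K + 1) * N r → D k r := by
    intro k r hkr h
    have hNN : N k = N r := by
      rcases lt_trichotomy (N k) (N r) with h1 | h1 | h1
      · exfalso
        have h2 : (N k : ℝ) + 1 ≤ N r := by exact_mod_cast h1
        have hK : (0:ℝ) ≤ K := Nat.cast_nonneg _
        nlinarith [μlt k, μlt r, μ0 k, μ0 r,
          mul_le_mul_of_nonneg_left h2 (by linarith : (0:ℝ) ≤ (K:ℝ) + 1)]
      · exact h1
      · exfalso
        have h2 : (N r : ℝ) + 1 ≤ N k := by exact_mod_cast h1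
        have hK : (0:ℝ) ≤ K := Nat.cast_nonneg _
        nlinarith [μlt k, μlt r, μ0 k, μ0 r,
          mul_le_mul_of_nonneg_left h2 (by linarith : (0:ℝ) ≤ (K:ℝ) + 1)]
    have hμμ : μ k = μ r := by
      rw [hNN] at h
      have : (μ k : ℝ) = μ r := by linarith
      exact_mod_cast this
    obtain ⟨m, hm, h3, h4⟩ := μmem k
    obtain ⟨m', hm', h5, h6⟩ := μmem r
    have hmm : m = m' := Fin.ext (by rw [hm, hm', hμμ])
    subst hmm
    have hkr' : R k r := Rtrans h3 h6
    have hrk' : R r k := Rtrans h5 h4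
    have step : ∀ x, R x r → x ≠ r → ∃ s, s ≠ x ∧ D x s ∧ R s r := by
      intro x hx
      refine Relation.ReflTransGen.head_induction_on
        (motive := fun x _ => x ≠ r → ∃ s, s ≠ x ∧ D x s ∧ R s r) hx ?_ ?_
      · intro h
        exact absurd rfl h
      · intro x y hxy hyr ih hxr
        by_cases hyx : y = x
        · subst hyx
          exact ih hxr
        · exact ⟨y, hyx, hxy, hyr⟩
    obtain ⟨s, hsk, hks, hsr⟩ := step k hkr' hkr
    by_cases hs : s = r
    · rw [← hs]; exact hks
    · exfalso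
      exact hD k s r (Ne.symm hsk) hs hkr (Relation.ReflTransGen.single hks) hsr hrk'
  refine ⟨fun k => (μ k : ℝ) - (K + 1) * N k, ?_, two, ?_⟩
  · intro k r hkr
    have h1 : R k r := Relation.ReflTransGen.single hkr
    by_cases h2 : R r k
    · show (μ k : ℝ) - (K + 1) * N k ≤ (μ r : ℝ) - (K + 1) * N r
      rw [eqN k r h1 h2, eqμ k r h1 h2]
    · have h3 : N r + 1 ≤ N k := by
        apply Nat.succ_le_of_lt
        apply Finset.card_lt_card
        rw [Finset.ssubset_iff_of_subset]
        · refine ⟨k, by simp [Rrefl k], by simp [h2]⟩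
        · intro m hm
          simp only [Finset.mem_filter, Finset.mem_univ, true_and] at hm ⊢
          exact Rtrans h1 hm
      have h3' : (N r : ℝ) + 1 ≤ N k := by exact_mod_cast h3
      have hK : (0:ℝ) ≤ K := Nat.cast_nonneg _
      show (μ k : ℝ) - (K + 1) * N k ≤ (μ r : ℝ) - (K + 1) * N r
      nlinarith [μlt k, μlt r, μ0 k, μ0 r,
        mul_le_mul_of_nonneg_left h3' (by linarith : (0:ℝ) ≤ (K:ℝ) + 1)]
  · intro k r l h1 h2
    by_contra hcon
    push Not at hcon
    obtain ⟨hkr, hrl, hkl⟩ := hcon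
    have d1 := two k r hkr h1
    have d2 := two r l hrl h2
    have d3 := two l k (Ne.symm hkl) (h1.trans h2).symm
    exact hD k r l hkr hrl hkl (Relation.ReflTransGen.single d1)
      (Relation.ReflTransGen.single d2) (Relation.ReflTransGen.single d3)

end Pool.Agent.NBT.H9
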